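import Pool.Agent.Q239.EX.GWGA

/-! Project EX (helper20), job CHU (helper239): Kummer extensions and congruences. -/

set_option autoImplicit false

namespace Pool.Agent.Q239.EX

open Finset NumberField IsDedekindDomain

/-- if `s` is not a `p ^ a`-th power there is an automorphism which moves a `p ^ b`-th root of `s` and fixes
the roots of unity -/
theorem exists_kummer (F : Type) [Field F] [NumberField F] (p a : ℕ) (hp : p.Prime) : ∃ b0 : ℕ,
    ∀ b : ℕ, b0 ≤ b → ∀ s : F, (¬ ∃ t : F, t ^ p ^ a = s) →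
    ∃ (M : Type) (_ : Field M) (_ : NumberField M) (_ : Algebra F M) (_ : IsGalois F M) (ζ r : M)
      (g : M ≃ₐ[F] M), IsPrimitiveRoot ζ (p ^ b) ∧ r ^ p ^ b = algebraMap F M s ∧ g ζ = ζ ∧ g r ≠ r := by
  obtain ⟨b0, hb0⟩ := gwg0 F p a hp
  refine ⟨b0, fun b hb s hs => ?_⟩
  have hn0 : p ^ b ≠ 0 := pow_ne_zero b hp.ne_zero
  have : NeZero (p ^ b) := ⟨hn0⟩
  let f : Polynomial F := Polynomial.cyclotomic (p ^ b) F * (Polynomial.X ^ p ^ b - Polynomial.C s)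
  have hf2 : (Polynomial.X ^ p ^ b - Polynomial.C s : Polynomial F) ≠ 0 :=
    Polynomial.X_pow_sub_C_ne_zero (Nat.pos_of_ne_zero hn0) s
  have hf0 : f ≠ 0 := mul_ne_zero (Polynomial.cyclotomic_ne_zero _ _) hf2
  let M := f.SplittingField
  have hM : NumberField M := NumberField.of_module_finite F M
  have hnormal : Normal F M := inferInstanceAs (Normal F f.SplittingField)
  have hgal : IsGalois F M := ⟨⟩
  have hspl : (f.map (algebraMap F M)).Splits := Polynomial.SplittingField.splits f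
  have hfM : f.map (algebraMap F M) ≠ 0 := (Polynomial.map_ne_zero_iff (algebraMap F M).injective).2 hf0
  have hNM : NeZero ((p ^ b : ℕ) : M) := ⟨Nat.cast_ne_zero.2 hn0⟩
  obtain ⟨ζ, hζ⟩ : ∃ ζ : M, IsPrimitiveRoot ζ (p ^ b) := by
    have h1 : (Polynomial.cyclotomic (p ^ b) M).Splits := by
      refine hspl.of_dvd hfM ?_
      rw [← Polynomial.map_cyclotomic (p ^ b) (algebraMap F M)]
      exact Polynomial.map_dvd _ (dvd_mul_right _ _)
    obtain ⟨ζ, hζ⟩ := h1.exists_eval_eq_zero (Polynomial.degree_cyclotomic_pos (p ^ b) M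
      (Nat.pos_of_ne_zero hn0)).ne'
    exact ⟨ζ, Polynomial.isRoot_cyclotomic_iff.1 hζ⟩
  obtain ⟨r, hr⟩ : ∃ r : M, r ^ p ^ b = algebraMap F M s := by
    have h1 : (Polynomial.X ^ p ^ b - Polynomial.C (algebraMap F M s) : Polynomial M).Splits := by
      refine hspl.of_dvd hfM ?_
      have e : (Polynomial.X ^ p ^ b - Polynomial.C (algebraMap F M s) : Polynomial M) =
          (Polynomial.X ^ p ^ b - Polynomial.C s : Polynomial F).map (algebraMap F M) := by simp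
      rw [e]
      exact Polynomial.map_dvd _ (dvd_mul_left _ _)
    obtain ⟨r, hr⟩ := h1.exists_eval_eq_zero (by
      rw [Polynomial.degree_X_pow_sub_C (Nat.pos_of_ne_zero hn0)]
      exact_mod_cast hn0)
    refine ⟨r, ?_⟩
    simpa [sub_eq_zero] using hr
  refine ⟨M, inferInstance, hM, inferInstance, hgal, ζ, r, ?_⟩
  by_contra hcon
  push Not at hcon
  have hall : ∀ g : M ≃ₐ[F] M, g ζ = ζ → g r = r := fun g hg => hcon g hζ hr hg
  let E : IntermediateField F M := IntermediateField.adjoin F {ζ}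
  have hζE : ζ ∈ E := IntermediateField.mem_adjoin_simple_self F ζ
  have hrE : r ∈ E := by
    rw [← IsGalois.fixedField_fixingSubgroup E, IntermediateField.mem_fixedField_iff]
    intro g hg
    apply hall
    exact (IntermediateField.mem_fixingSubgroup_iff E g).1 hg ζ hζE
  have hcyc : IsCyclotomicExtension {p ^ b} F E := hζ.intermediateField_adjoin_isCyclotomicExtension F
  have hE : NumberField E := NumberField.of_module_finite F E
  refine hs (hb0 b hb E s ⟨r, hrE⟩ ?_)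
  apply Subtype.ext
  exact hr

/-- Let `g` be a Frobenius element which fixes the roots of unity. A unit `S T ^ n ≡ 1` has a root `r` which is
fixed by `g`. -/
theorem frob_fixes {F M : Type} [Field F] [NumberField F] [Field M] [NumberField M] [Algebra F M] {p b : ℕ}
    (hp : p.Prime) {ζ r : M} (hζ : IsPrimitiveRoot ζ (p ^ b)) {g : M ≃ₐ[F] M} (hg : g ζ = ζ)
    {S T U : (𝓞 F)ˣ} (hU : U = S * T ^ p ^ b) (hr : r ^ p ^ b = algebraMap F M ((S : 𝓞 F) : F))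
    {v : HeightOneSpectrum (𝓞 F)} (hpv : (p : 𝓞 F) ∉ v.asIdeal) (hUv : (U : 𝓞 F) - 1 ∈ v.asIdeal)
    {w : Ideal (𝓞 M)} (hw : w.IsMaximal) (hwv : w.comap (algebraMap (𝓞 F) (𝓞 M)) = v.asIdeal) {q : ℕ}
    (hq : ∀ x : 𝓞 M, ∃ y ∈ w, (y : M) = g x - (x : M) ^ q) : g r = r := by
  have hn0 : p ^ b ≠ 0 := pow_ne_zero b hp.ne_zero
  have hwp : w.IsPrime := hw.isPrime
  have hrint : IsIntegral ℤ r := by
    have h1 : IsIntegral ℤ (r ^ p ^ b) := by
      rw [hr]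
      exact ((S : 𝓞 F).2).map (algebraMap F M : F →+* M).toIntAlgHom
    exact IsIntegral.of_pow (Nat.pos_of_ne_zero hn0) h1
  have hζint : IsIntegral ℤ ζ := hζ.isIntegral (Nat.pos_of_ne_zero hn0)
  let R0 : 𝓞 M := ⟨r, hrint⟩
  let Z : 𝓞 M := ⟨ζ, hζint⟩
  have hR0 : (R0 : M) = r := rfl
  have hZ0 : (Z : M) = ζ := rfl
  let G : 𝓞 M →+* 𝓞 M := RingOfIntegers.mapRingHom (g : M →+* M)
  have hG : ∀ x : 𝓞 M, ((G x : 𝓞 M) : M) = g (x : M) := fun x => rfl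
  let π : 𝓞 M →+* (𝓞 M ⧸ w) := Ideal.Quotient.mk w
  have hπ0 : ∀ x : 𝓞 M, π x = 0 ↔ x ∈ w := fun x => Ideal.Quotient.eq_zero_iff_mem
  have hπG : ∀ x : 𝓞 M, π (G x) = π x ^ q := by
    intro x
    obtain ⟨y, hy, hyx⟩ := hq x
    have e : G x = y + x ^ q := by
      apply RingOfIntegers.ext
      have h1 : ((y + x ^ q : 𝓞 M) : M) = (y : M) + (x : M) ^ q := by
        rw [RingOfIntegers.coe_eq_algebraMap, map_add, map_pow]
      rw [hG, h1, hyx]
      ring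
    rw [e, map_add, (hπ0 y).2 hy, zero_add, map_pow]
  have hZprim : IsPrimitiveRoot Z (p ^ b) := by
    refine IsPrimitiveRoot.of_map_of_injective (f := algebraMap (𝓞 M) M) ?_
      RingOfIntegers.coe_injective
    exact hζ
  have hGal : ∀ x : 𝓞 F, G (algebraMap (𝓞 F) (𝓞 M) x) = algebraMap (𝓞 F) (𝓞 M) x := by
    intro x
    apply RingOfIntegers.ext
    rw [hG]
    exact g.commutes (x : F)
  have hR0n : R0 ^ p ^ b = algebraMap (𝓞 F) (𝓞 M) (S : 𝓞 F) := by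
    apply RingOfIntegers.ext
    have h1 : ((R0 ^ p ^ b : 𝓞 M) : M) = (R0 : M) ^ p ^ b := by
      rw [RingOfIntegers.coe_eq_algebraMap, map_pow]
    rw [h1]
    exact hr
  set R : 𝓞 M := R0 * algebraMap (𝓞 F) (𝓞 M) (T : 𝓞 F) with hR
  have hRn : R ^ p ^ b = algebraMap (𝓞 F) (𝓞 M) (U : 𝓞 F) := by
    rw [hR, mul_pow, hR0n, ← map_pow, ← map_mul, hU]
    simp
  have hπRn : π R ^ p ^ b = 1 := by
    rw [← map_pow, hRn]
    have h1 : algebraMap (𝓞 F) (𝓞 M) ((U : 𝓞 F) - 1) ∈ w := by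
      rw [← Ideal.mem_comap, hwv]
      exact hUv
    rw [← hπ0, map_sub, map_sub, map_one, map_one, sub_eq_zero] at h1
    exact h1
  have hprod : ∏ η ∈ Polynomial.nthRootsFinset (p ^ b) (1 : 𝓞 M), (π R - π η) = 0 := by
    have h1 := congrArg (fun P : Polynomial (𝓞 M) => P.eval R)
      (Polynomial.X_pow_sub_one_eq_prod (Nat.pos_of_ne_zero hn0) hZprim)
    simp only [Polynomial.eval_sub, Polynomial.eval_pow, Polynomial.eval_X, Polynomial.eval_one,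
      Polynomial.eval_prod, Polynomial.eval_C] at h1
    have h2 := congrArg π h1
    rw [map_sub, map_pow, hπRn, map_one, sub_self, map_prod] at h2
    simp only [map_sub] at h2
    exact h2.symm
  obtain ⟨η, hη1, hη2⟩ := Finset.prod_eq_zero_iff.1 hprod
  have hηn : η ^ p ^ b = 1 := (Polynomial.mem_nthRootsFinset (Nat.pos_of_ne_zero hn0) (1 : 𝓞 M)).1 hη1
  have : NeZero (p ^ b) := ⟨hn0⟩
  have hGη : G η = η := by
    obtain ⟨i, -, hi⟩ := hZprim.eq_pow_of_pow_eq_one hηn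
    have hGZ : G Z = Z := by
      apply RingOfIntegers.ext
      rw [hG]
      exact hg
    rw [← hi, map_pow, hGZ]
  have hπRη : π R = π η := sub_eq_zero.1 hη2
  have h3 : π (G R) = π R := by
    rw [hπG, hπRη, ← hπG, hGη]
  have h4 : π (G R0) = π R0 := by
    rw [hR, map_mul, hGal, map_mul, map_mul] at h3
    have hTu : IsUnit (π (algebraMap (𝓞 F) (𝓞 M) (T : 𝓞 F))) := (T.isUnit.map _).map _
    exact hTu.mul_right_cancel h3
  have hR0u : IsUnit R0 := by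
    rw [← isUnit_pow_iff hn0, hR0n]
    exact S.isUnit.map _
  obtain ⟨V, hV⟩ := hR0u
  set Ω : 𝓞 M := G R0 * ((V⁻¹ : (𝓞 M)ˣ) : 𝓞 M) with hΩ
  have hΩR : Ω * R0 = G R0 := by
    rw [hΩ, ← hV, mul_assoc, Units.inv_mul, mul_one]
  have hΩn : Ω ^ p ^ b = 1 := by
    have h5 : Ω ^ p ^ b * R0 ^ p ^ b = R0 ^ p ^ b := by
      rw [← mul_pow, hΩR, ← map_pow, hR0n, hGal]
    have h6 : IsUnit (R0 ^ p ^ b) := IsUnit.pow _ ⟨V, hV⟩
    exact h6.mul_right_cancel (by rw [h5, one_mul])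
  have hπΩ : π Ω = 1 := by
    have h5 : π Ω * π R0 = π R0 := by rw [← map_mul, hΩR, h4]
    have h6 : IsUnit (π R0) := IsUnit.map π ⟨V, hV⟩
    exact h6.mul_right_cancel (by rw [h5, one_mul])
  by_cases hΩ1 : Ω = 1
  · rw [hΩ1, one_mul] at hΩR
    have h5 := congrArg (fun x : 𝓞 M => (x : M)) hΩR
    exact h5.symm
  · exfalso
    have h5 := geom_sum_mul Ω (p ^ b)
    rw [hΩn, sub_self] at h5
    have h6 : ∑ i ∈ range (p ^ b), Ω ^ i = 0 := by
      rcases mul_eq_zero.1 h5 with h | h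
      · exact h
      · exact absurd (sub_eq_zero.1 h) hΩ1
    have h7 := congrArg π h6
    rw [map_sum, map_zero] at h7
    simp only [map_pow, hπΩ, one_pow, sum_const, card_range, nsmul_eq_mul, mul_one] at h7
    have h8 : (((p ^ b : ℕ) : 𝓞 M)) ∈ w := by
      rw [← hπ0, map_natCast]
      exact h7
    rw [Nat.cast_pow] at h8
    have h9 : ((p : ℕ) : 𝓞 M) ∈ w := hwp.mem_of_pow_mem _ h8
    apply hpv
    rw [← hwv, Ideal.mem_comap, map_natCast]
    exact h9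

/-- the theorem of Chebotarev, in the form used here -/
def Cheb (F : Type) [Field F] [NumberField F] : Prop := ∀ (M : Type) [Field M] [NumberField M] [Algebra F M]
  [IsGalois F M] (g : M ≃ₐ[F] M) (B : Set (HeightOneSpectrum (𝓞 F))), B.Finite →
  ∃ v : HeightOneSpectrum (𝓞 F), v ∉ B ∧ ∃ w : Ideal (𝓞 M), w.IsMaximal ∧
    w.comap (algebraMap (𝓞 F) (𝓞 M)) = v.asIdeal ∧
    ∀ x : 𝓞 M, ∃ y ∈ w, (y : M) = g x - (x : M) ^ Ideal.absNorm v.asIdeal

theorem finite_dvd {F : Type} [Field F] [NumberField F] {N : ℕ} (hN : N ≠ 0) :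
    {v : HeightOneSpectrum (𝓞 F) | (N : 𝓞 F) ∈ v.asIdeal}.Finite := by
  have h0 : Ideal.span {(N : 𝓞 F)} ≠ 0 := by
    intro h
    have h1 : (N : 𝓞 F) = 0 := Ideal.span_singleton_eq_bot.1 h
    exact hN (Nat.cast_eq_zero.1 h1)
  refine (Ideal.finite_factors h0).subset ?_
  intro v hv
  exact Ideal.dvd_span_singleton.2 hv

/-- the residue characteristic -/
theorem exists_char {F : Type} [Field F] [NumberField F] {N0 : ℕ} (v : HeightOneSpectrum (𝓞 F))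
    (hv : (N0 : 𝓞 F) ∉ v.asIdeal) : ∃ l : ℕ, l ≠ 0 ∧ l.Coprime N0 ∧ (l : 𝓞 F) ∈ v.asIdeal := by
  have hvm : v.asIdeal.IsMaximal := v.isMaximal
  have hvp : v.asIdeal.IsPrime := v.isPrime
  have hfin : Finite (𝓞 F ⧸ v.asIdeal) := Ideal.finiteQuotientOfFreeOfNeBot v.asIdeal v.ne_bot
  obtain ⟨l, hl⟩ := CharP.exists (𝓞 F ⧸ v.asIdeal)
  have hlp : l.Prime := CharP.char_is_prime (𝓞 F ⧸ v.asIdeal) l
  have hlv : (l : 𝓞 F) ∈ v.asIdeal := by
    rw [← Ideal.Quotient.eq_zero_iff_mem, map_natCast]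
    exact CharP.cast_eq_zero _ l
  refine ⟨l, hlp.ne_zero, ?_, hlv⟩
  rw [Nat.Prime.coprime_iff_not_dvd hlp]
  rintro ⟨k, rfl⟩
  apply hv
  rw [Nat.cast_mul]
  exact v.asIdeal.mul_mem_right _ hlv

theorem chu_pp {F : Type} [Field F] [NumberField F] (hC : Cheb F) (p a : ℕ) (hp : p.Prime) (N0 : ℕ)
    (hN0 : N0 ≠ 0) : ∃ Q : ℕ, Q ≠ 0 ∧ Q.Coprime N0 ∧ ∀ U : (𝓞 F)ˣ,
    (∀ v : HeightOneSpectrum (𝓞 F), (Q : 𝓞 F) ∈ v.asIdeal → (U : 𝓞 F) - 1 ∈ v.asIdeal) →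
    ∃ t : F, t ^ p ^ a = ((U : 𝓞 F) : F) := by
  classical
  obtain ⟨b0, hb0⟩ := exists_kummer F p a hp
  set b := max b0 a with hb
  set n := p ^ b with hn
  have hn0 : n ≠ 0 := pow_ne_zero b hp.ne_zero
  let H : Subgroup (𝓞 F)ˣ := (powMonoidHom n : (𝓞 F)ˣ →* (𝓞 F)ˣ).range
  have hfin : Finite ((𝓞 F)ˣ ⧸ H) := by
    have hfg : Group.FG (𝓞 F)ˣ := Group.fg_iff_monoid_fg.2 inferInstance
    have hfg2 : Group.FG ((𝓞 F)ˣ ⧸ H) := inferInstance
    refine CommGroup.finite_of_fg_isMulTorsion _ ?_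
    intro c
    obtain ⟨U, rfl⟩ := QuotientGroup.mk_surjective c
    refine isOfFinOrder_iff_pow_eq_one.2 ⟨n, Nat.pos_of_ne_zero hn0, ?_⟩
    rw [← QuotientGroup.mk_pow, QuotientGroup.eq_one_iff]
    exact ⟨U, rfl⟩
  have hfty : Fintype ((𝓞 F)ˣ ⧸ H) := Fintype.ofFinite _
  have hrep : ∀ c : (𝓞 F)ˣ ⧸ H, ∃ k : ℕ, k ≠ 0 ∧ k.Coprime N0 ∧ ∀ U T : (𝓞 F)ˣ, U = c.out * T ^ n →
      (∀ v : HeightOneSpectrum (𝓞 F), (k : 𝓞 F) ∈ v.asIdeal → (U : 𝓞 F) - 1 ∈ v.asIdeal) →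
      ∃ t : F, t ^ p ^ a = ((U : 𝓞 F) : F) := by
    intro c
    by_cases hs : ∃ t : F, t ^ p ^ a = ((c.out : 𝓞 F) : F)
    · obtain ⟨t, ht⟩ := hs
      refine ⟨1, one_ne_zero, Nat.coprime_one_left N0, fun U T hU _ => ?_⟩
      refine ⟨t * ((T : 𝓞 F) : F) ^ p ^ (b - a), ?_⟩
      have hUF : ((U : 𝓞 F) : F) = ((c.out : 𝓞 F) : F) * ((T : 𝓞 F) : F) ^ n := by
        rw [hU, Units.val_mul, Units.val_pow_eq_pow_val, RingOfIntegers.coe_eq_algebraMap, map_mul, map_pow]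
      rw [mul_pow, ht, ← pow_mul, ← pow_add, Nat.sub_add_cancel (le_max_right _ _), hUF]
    · obtain ⟨M, _, _, _, _, ζ, r, g, hζ, hr, hg, hgr⟩ := hb0 b (le_max_left _ _) _ hs
      obtain ⟨v, hvB, w, hw, hwv, hq⟩ := hC M g {v | ((p * N0 : ℕ) : 𝓞 F) ∈ v.asIdeal}
        (finite_dvd (mul_ne_zero hp.ne_zero hN0))
      have hvp : (p : 𝓞 F) ∉ v.asIdeal := by
        intro h
        apply hvB
        change ((p * N0 : ℕ) : 𝓞 F) ∈ v.asIdeal
        rw [Nat.cast_mul]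
        exact v.asIdeal.mul_mem_right _ h
      have hvN : (N0 : 𝓞 F) ∉ v.asIdeal := by
        intro h
        apply hvB
        change ((p * N0 : ℕ) : 𝓞 F) ∈ v.asIdeal
        rw [Nat.cast_mul]
        exact v.asIdeal.mul_mem_left _ h
      obtain ⟨l, hl0, hl1, hl2⟩ := exists_char v hvN
      refine ⟨l, hl0, hl1, fun U T hU hUv => ?_⟩
      exact absurd (frob_fixes hp hζ hg hU hr hvp (hUv v hl2) hw hwv hq) hgr
  choose k hk0 hk1 hk2 using hrep
  refine ⟨∏ c, k c, Finset.prod_ne_zero_iff.2 fun c _ => hk0 c, Nat.Coprime.prod_left fun c _ => hk1 c,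
    fun U hU => ?_⟩
  let c : (𝓞 F)ˣ ⧸ H := QuotientGroup.mk U
  have hc : (c.out)⁻¹ * U ∈ H := by
    rw [← QuotientGroup.eq]
    exact QuotientGroup.out_eq' c
  obtain ⟨T, hT⟩ := hc
  refine hk2 c U T ?_ fun v hv => hU v ?_
  · have hT' : T ^ n = (c.out)⁻¹ * U := hT
    rw [hT', mul_inv_cancel_left]
  · have hd : k c ∣ ∏ c, k c := Finset.dvd_prod_of_mem k (Finset.mem_univ c)
    obtain ⟨j, hj⟩ := hd
    rw [hj, Nat.cast_mul]
    exact v.asIdeal.mul_mem_right _ hv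

theorem chu_units {F : Type} [Field F] [NumberField F] (hC : Cheb F) (N0 : ℕ)
    (hN0 : N0 ≠ 0) (m : ℕ) (hm : m ≠ 0) : ∃ Q : ℕ, Q ≠ 0 ∧ Q.Coprime N0 ∧ ∀ U : (𝓞 F)ˣ,
    (∀ v : HeightOneSpectrum (𝓞 F), (Q : 𝓞 F) ∈ v.asIdeal → (U : 𝓞 F) - 1 ∈ v.asIdeal) →
    ∃ t : F, t ^ m = ((U : 𝓞 F) : F) := by
  induction m using Nat.recOnPosPrimePosCoprime with
  | prime_pow p a hp _ => exact chu_pp hC p a hp N0 hN0
  | zero => exact absurd rfl hm
  | one => exact ⟨1, one_ne_zero, Nat.coprime_one_left N0, fun U _ => ⟨_, pow_one _⟩⟩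
  | coprime a b ha hb hab iha ihb =>
    obtain ⟨Qa, ha0, ha1, ha2⟩ := iha (by omega)
    obtain ⟨Qb, hb0, hb1, hb2⟩ := ihb (by omega)
    refine ⟨Qa * Qb, mul_ne_zero ha0 hb0, Nat.Coprime.mul_left ha1 hb1, fun U hU => ?_⟩
    obtain ⟨t1, ht1⟩ := ha2 U fun v hv => hU v (by
      rw [Nat.cast_mul]
      exact v.asIdeal.mul_mem_right _ hv)
    obtain ⟨t2, ht2⟩ := hb2 U fun v hv => hU v (by
      rw [Nat.cast_mul]
      exact v.asIdeal.mul_mem_left _ hv)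
    obtain ⟨α, β, hαβ⟩ := Nat.isCoprime_iff_coprime.2 hab
    have hU0 : ((U : 𝓞 F) : F) ≠ 0 := by
      intro h
      exact U.ne_zero (RingOfIntegers.ext (by rw [h]; rfl))
    refine ⟨t2 ^ α * t1 ^ β, ?_⟩
    rw [mul_pow, ← zpow_natCast, ← zpow_natCast, ← zpow_mul, ← zpow_mul]
    have e1 : α * ((a * b : ℕ) : ℤ) = (b : ℤ) * (α * a) := by push_cast; ring
    have e2 : β * ((a * b : ℕ) : ℤ) = (a : ℤ) * (β * b) := by push_cast; ring
    rw [e1, e2, zpow_mul t2, zpow_mul t1, zpow_natCast, zpow_natCast, ht1, ht2, ← zpow_add₀ hU0, hαβ, zpow_one]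

end Pool.Agent.Q239.EX
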