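import Pool.Agent.Q20.EX.Stm
import Pool.Agent.Q14.AR.Cheb
import Pool.Agent.Q125.AR.Base
import Pool.Agent.Q239.EX.CHUA

/-! Project EX (helper20), job CHU (helper239). -/

set_option autoImplicit false

namespace Pool.Agent.Q239.EX

open NumberField IsDedekindDomain Pool.Agent.Q5.BR Pool.Agent.Q92.AR Pool.Agent.Q20.EX

/-- job CHU -/
theorem chu : S_CHU := by
  intro _ F _ _ m N0 hm hN0
  have hC : Cheb F := by
    intro M _ _ _ _ g B hB
    obtain ⟨v, hv, -, hfr⟩ := Pool.Agent.Q14.AR.cheb F M g B hB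
    exact ⟨v, hv, hfr⟩
  obtain ⟨Q, hQ0, hQ1, hQ2⟩ := chu_units hC N0 hN0 m hm
  refine ⟨Q, hQ0, hQ1, fun u hu hcong => ?_⟩
  have hval : ∀ (x : Fˣ), prin x = 0 → ∀ v : HeightOneSpectrum (𝓞 F), v.valuation F (x : F) = 1 := by
    intro x hx v
    rw [Pool.Agent.Q125.AR.valuation_eq_exp, hx]
    simp
  have hint : ∀ (x : Fˣ), prin x = 0 → ∃ a : 𝓞 F, algebraMap (𝓞 F) F a = x := fun x hx =>
    HeightOneSpectrum.mem_integers_of_valuation_le_one F (x : F) fun v => (hval x hx v).le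
  obtain ⟨A, hA⟩ := hint u hu
  obtain ⟨A', hA'⟩ := hint u⁻¹ (by rw [prin_inv, hu, neg_zero])
  have hAA : A * A' = 1 := by
    apply RingOfIntegers.ext
    rw [RingOfIntegers.coe_eq_algebraMap, map_mul, hA, hA', RingOfIntegers.coe_eq_algebraMap, map_one]
    rw [← Units.val_mul, mul_inv_cancel, Units.val_one]
  let U : (𝓞 F)ˣ := ⟨A, A', hAA, by rw [mul_comm]; exact hAA⟩
  obtain ⟨t, ht⟩ := hQ2 U fun v hv => by
    have h1 := hcong v hv
    have h2 : algebraMap (𝓞 F) F (A - 1) = (u : F) - 1 := by rw [map_sub, hA, map_one]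
    rw [← h2] at h1
    exact (v.valuation_lt_one_iff_mem (K := F) (A - 1)).1 h1
  have ht' : t ^ m = (u : F) := by rw [ht]; exact hA
  have ht0 : t ≠ 0 := by
    rintro rfl
    rw [zero_pow hm] at ht'
    exact u.ne_zero ht'.symm
  have hut : u = (Units.mk0 t ht0) ^ m := by
    apply Units.ext
    rw [Units.val_pow_eq_pow_val, Units.val_mk0, ht']
  refine ⟨Units.mk0 t ht0, ?_, hut⟩
  have h3 : m • prin (Units.mk0 t ht0) = 0 := by
    rw [← hu, hut]
    exact ((prinHom (F := F)).map_nsmul m (Additive.ofMul (Units.mk0 t ht0))).symm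
  ext v
  have h4 := DFunLike.congr_fun h3 v
  rw [Finsupp.smul_apply, Finsupp.zero_apply, smul_eq_zero] at h4
  rcases h4 with h | h
  · exact absurd h hm
  · exact h

end Pool.Agent.Q239.EX
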