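import Mathlib

/-! Project EX (helper20), job GWG (helper239): powers in cyclotomic extensions. -/

set_option autoImplicit false

namespace Pool.Agent.Q239.EX

open Finset

/-- geometric sums at numbers `1 mod p ^ 2` -/
theorem geom_p {p : ℕ} (hp : p.Prime) {c : ℤ} (hc1 : c ≠ 1) (hc : ((p : ℤ) ^ 2) ∣ c - 1) (j : ℕ) :
    ∃ u : ℤ, ¬ (p : ℤ) ∣ u ∧ ∑ i ∈ range (p ^ j), c ^ i = (p : ℤ) ^ j * u := by
  have hpI : Prime (p : ℤ) := Nat.prime_iff_prime_int.1 hp
  induction j with
  | zero => exact ⟨1, fun h => hpI.not_dvd_one h, by simp⟩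
  | succ j ih =>
    obtain ⟨u, hu, hu2⟩ := ih
    have h1 : ∑ i ∈ range (p ^ (j + 1)), c ^ i =
        (∑ k ∈ range p, (c ^ p ^ j) ^ k) * (∑ i ∈ range (p ^ j), c ^ i) := by
      have e1 := geom_sum_mul c (p ^ (j + 1))
      have e2 := geom_sum_mul (c ^ p ^ j) p
      have e3 := geom_sum_mul c (p ^ j)
      have e4 : (c ^ p ^ j) ^ p = c ^ p ^ (j + 1) := by rw [← pow_mul, pow_succ]
      rw [e4, ← e3] at e2
      have e5 : (∑ i ∈ range (p ^ (j + 1)), c ^ i) * (c - 1) =
          ((∑ k ∈ range p, (c ^ p ^ j) ^ k) * (∑ i ∈ range (p ^ j), c ^ i)) * (c - 1) := by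
        rw [e1, mul_assoc, e2]
      exact mul_right_cancel₀ (sub_ne_zero.2 hc1) e5
    have h2 : ((p : ℤ) ^ 2) ∣ (∑ k ∈ range p, (c ^ p ^ j) ^ k) - p := by
      have : (∑ k ∈ range p, (c ^ p ^ j) ^ k) - (p : ℤ) = ∑ k ∈ range p, ((c ^ p ^ j) ^ k - 1) := by
        rw [sum_sub_distrib]; simp
      rw [this]
      apply dvd_sum
      intro k _
      rw [← pow_mul]
      exact hc.trans (by simpa using sub_dvd_pow_sub_pow c 1 (p ^ j * k))
    obtain ⟨v, hv⟩ := h2
    refine ⟨(1 + p * v) * u, ?_, ?_⟩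
    · intro h
      rcases hpI.dvd_or_dvd h with h | h
      · have : (p : ℤ) ∣ 1 := by
          have h3 : (p : ℤ) ∣ (1 + p * v) - p * v := dvd_sub h (dvd_mul_right _ _)
          simpa using h3
        exact hpI.not_dvd_one this
      · exact hu h
    · rw [h1, hu2]
      have : (∑ k ∈ range p, (c ^ p ^ j) ^ k) = p + (p : ℤ) ^ 2 * v := by linarith
      rw [this]
      ring

/-- the image of the Galois group of a cyclotomic extension -/
theorem exists_aut (F : Type) [Field F] [NumberField F] {n : ℕ} [NeZero n] (C : Type) [Field C]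
    [NumberField C] [Algebra F C] [IsCyclotomicExtension {n} F C] {ζ : C} (hζ : IsPrimitiveRoot ζ n)
    (c : ℕ) (hc : c.Coprime n) :
    ∃ δ : C ≃ₐ[F] C, δ ζ = ζ ^ c ^ (Module.finrank ℚ F).factorial := by
  have hgal : IsGalois F C := IsCyclotomicExtension.isGalois {n} F C
  let H := (hζ.autToPow F).range
  have hcard : Nat.card H = Module.finrank F C := by
    rw [← IsGalois.card_aut_eq_finrank F C]
    exact (Nat.card_congr (MonoidHom.ofInjective (hζ.autToPow_injective F)).toEquiv).symm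
  have htot : n.totient ≤ Module.finrank ℚ F * Module.finrank F C := by
    rw [Module.finrank_mul_finrank ℚ F C]
    have h := IsPrimitiveRoot.lcm_totient_le_finrank (K := ℚ) hζ hζ
      (Polynomial.cyclotomic.irreducible_rat (by rw [Nat.lcm_self]; exact NeZero.pos n))
    rwa [Nat.lcm_self] at h
  have hidx : H.index * Nat.card H = n.totient := by
    rw [Subgroup.index_mul_card, Nat.card_eq_fintype_card, ZMod.card_units_eq_totient]
  have hpos : 0 < Nat.card H := Nat.card_pos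
  have hle : H.index ≤ Module.finrank ℚ F := by
    rw [hcard] at hidx hpos
    rw [← hidx] at htot
    exact Nat.le_of_mul_le_mul_right htot hpos
  have hmem := Subgroup.pow_mem_of_index_ne_zero_of_dvd (H := H) Subgroup.index_ne_zero_of_finite
    (ZMod.unitOfCoprime c hc) (n := (Module.finrank ℚ F).factorial)
    (fun m h1 h2 => Nat.dvd_factorial h1 (h2.trans hle))
  obtain ⟨δ, hδ⟩ := hmem
  refine ⟨δ, ?_⟩
  rw [← hζ.autToPow_spec F δ, hδ]
  have e : (((ZMod.unitOfCoprime c hc ^ (Module.finrank ℚ F).factorial : (ZMod n)ˣ) : ZMod n)).val =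
      c ^ (Module.finrank ℚ F).factorial % n := by
    rw [Units.val_pow_eq_pow_val, ZMod.coe_unitOfCoprime, ← Nat.cast_pow, ZMod.val_natCast]
  rw [e]
  conv_rhs => rw [← Nat.div_add_mod (c ^ (Module.finrank ℚ F).factorial) n, pow_add, pow_mul,
    hζ.pow_eq_one, one_pow, one_mul]

/-- job GWG, main argument -/
theorem gwg0 (F : Type) [Field F] [NumberField F] (p a : ℕ) (hp : p.Prime) : ∃ b0 : ℕ,
    ∀ b : ℕ, b0 ≤ b → ∀ (C : Type) [Field C] [NumberField C] [Algebra F C]
    [IsCyclotomicExtension {p ^ b} F C] (x : F) (y : C), y ^ p ^ b = algebraMap F C x →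
    ∃ t : F, t ^ p ^ a = x := by
  set D := (Module.finrank ℚ F).factorial with hD
  set c := (1 + p ^ 2) ^ D with hcdef
  have hD0 : D ≠ 0 := Nat.factorial_ne_zero _
  have hc1 : 1 < c := Nat.one_lt_pow hD0 (by have := pow_pos hp.pos 2; omega)
  obtain ⟨m, e, he, hme⟩ := Nat.exists_eq_pow_mul_and_not_dvd (n := c - 1) (by omega) p hp.one_lt.ne'
  have hc2 : ((p : ℤ) ^ 2) ∣ (c : ℤ) - 1 := by
    have h := sub_dvd_pow_sub_pow ((1 : ℤ) + (p : ℤ) ^ 2) 1 D
    rw [one_pow] at h
    have h2 : (c : ℤ) = (1 + (p : ℤ) ^ 2) ^ D := by rw [hcdef]; push_cast; ring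
    rw [h2]
    refine dvd_trans ?_ h
    simp
  refine ⟨m + a, fun b hb C _ _ _ _ x y hxy => ?_⟩
  have : NeZero (p ^ b) := ⟨pow_ne_zero b hp.ne_zero⟩
  by_cases hx : x = 0
  · exact ⟨0, by rw [hx]; exact zero_pow (pow_ne_zero a hp.ne_zero)⟩
  have hx' : algebraMap F C x ≠ 0 := fun h => hx ((map_eq_zero _).1 h)
  have hy : y ≠ 0 := by
    rintro rfl
    rw [zero_pow (pow_ne_zero b hp.ne_zero)] at hxy
    exact hx' hxy.symm
  have hgal : IsGalois F C := IsCyclotomicExtension.isGalois {p ^ b} F C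
  have hζ := IsCyclotomicExtension.zeta_spec (p ^ b) F C
  set ζ := IsCyclotomicExtension.zeta (p ^ b) F C with hζdef
  have hcop : (1 + p ^ 2).Coprime (p ^ b) := by
    apply Nat.Coprime.pow_right
    rw [Nat.coprime_comm, Nat.Prime.coprime_iff_not_dvd hp]
    intro h
    have h2 : p ∣ 1 := by
      have := Nat.dvd_sub h (dvd_pow_self p (two_ne_zero))
      simpa using this
    exact hp.one_lt.ne' (Nat.dvd_one.1 h2)
  obtain ⟨δ, hδ⟩ := exists_aut F (n := p ^ b) C hζ (1 + p ^ 2) hcop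
  rw [← hD, ← hcdef] at hδ
  have hroot : ∀ ω : C, ω ^ p ^ b = 1 → δ ω = ω ^ c := by
    intro ω hω
    obtain ⟨i, -, hi⟩ := hζ.eq_pow_of_pow_eq_one hω
    rw [← hi, map_pow, hδ, ← pow_mul, ← pow_mul, mul_comm]
  have htau : ∀ τ : C ≃ₐ[F] C, (τ y / y) ^ p ^ b = 1 := by
    intro τ
    rw [div_pow, ← map_pow, hxy, AlgEquiv.commutes, div_self hx']
  set ρ := δ y / y with hρ
  have hδy : δ y = ρ * y := by rw [hρ, div_mul_cancel₀ _ hy]
  have hρ1 : ρ ^ p ^ b = 1 := htau δ
  have hρ0 : ρ ≠ 0 := by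
    intro h
    rw [h, zero_pow (pow_ne_zero b hp.ne_zero)] at hρ1
    exact zero_ne_one hρ1
  have hiter : ∀ k : ℕ, (δ ^ k) y = ρ ^ (∑ i ∈ range k, c ^ i) * y := by
    intro k
    induction k with
    | zero => simp
    | succ k ih =>
      rw [pow_succ', AlgEquiv.mul_apply, ih, map_mul, map_pow, hroot ρ hρ1, hδy, geom_sum_succ, pow_succ,
        pow_mul]
      ring
  obtain ⟨u, hu, hu2⟩ := geom_p hp (c := (c : ℤ)) (by exact_mod_cast hc1.ne') hc2 (b - m)
  set S := ∑ i ∈ range (p ^ (b - m)), c ^ i with hS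
  have hSz : (S : ℤ) = (p : ℤ) ^ (b - m) * u := by rw [← hu2, hS]; push_cast; rfl
  -- the power of δ which is the identity
  have hJ : (δ ^ p ^ (b - m)) y = y := by
    have h1 : (δ ^ p ^ (b - m)) ζ = ζ ^ c ^ p ^ (b - m) := by
      have : ∀ k : ℕ, (δ ^ k) ζ = ζ ^ c ^ k := by
        intro k
        induction k with
        | zero => simp
        | succ k ih =>
          rw [pow_succ', AlgEquiv.mul_apply, ih, map_pow, hδ, ← pow_mul, pow_succ, mul_comm]
      exact this _
    have h2 : p ^ b ∣ c ^ p ^ (b - m) - 1 := by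
      have h3 := geom_sum_mul (c : ℤ) (p ^ (b - m))
      have h4 : ((p ^ b : ℕ) : ℤ) ∣ ((c ^ p ^ (b - m) - 1 : ℕ) : ℤ) := by
        rw [Nat.cast_sub (Nat.one_le_pow _ _ (by omega))]
        push_cast
        rw [← h3, hu2]
        have h5 : (c : ℤ) - 1 = (p : ℤ) ^ m * e := by
          have : ((c - 1 : ℕ) : ℤ) = ((p ^ m * e : ℕ) : ℤ) := by rw [hme]
          rw [Nat.cast_sub hc1.le] at this
          push_cast at this
          exact this
        rw [h5]
        refine ⟨u * e, ?_⟩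
        have : (p : ℤ) ^ b = (p : ℤ) ^ (b - m) * (p : ℤ) ^ m := by
          rw [← pow_add, Nat.sub_add_cancel (by omega)]
        rw [this]
        ring
      exact_mod_cast h4
    have h3 : (δ ^ p ^ (b - m)) ζ = ζ := by
      rw [h1]
      obtain ⟨k, hk⟩ := h2
      have h4 : c ^ p ^ (b - m) = p ^ b * k + 1 := by
        have : 1 ≤ c ^ p ^ (b - m) := Nat.one_le_pow _ _ (by omega)
        omega
      rw [h4, pow_succ, pow_mul, hζ.pow_eq_one, one_pow, one_mul]
    have h4 : (δ ^ p ^ (b - m)).toAlgHom = (1 : C ≃ₐ[F] C).toAlgHom := by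
      apply (hζ.powerBasis F).algHom_ext
      rw [IsPrimitiveRoot.powerBasis_gen]
      exact h3
    exact DFunLike.congr_fun h4 y
  have hρS : ρ ^ S = 1 := by
    rw [hiter] at hJ
    exact mul_right_cancel₀ hy (by rw [one_mul]; exact hJ)
  have hρJ : ρ ^ p ^ (b - m) = 1 := by
    obtain ⟨k, hk, hk2⟩ := (Nat.dvd_prime_pow hp).1 (orderOf_dvd_of_pow_eq_one hρ1)
    apply orderOf_dvd_iff_pow_eq_one.1
    rw [hk2]
    by_contra hcon
    have hkb : b - m < k := by
      by_contra h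
      exact hcon (pow_dvd_pow p (by omega))
    have h1 : p ^ (b - m + 1) ∣ S := by
      refine dvd_trans ?_ (orderOf_dvd_of_pow_eq_one hρS)
      rw [hk2]
      exact pow_dvd_pow p hkb
    have h2 : ((p : ℤ) ^ (b - m) * p) ∣ (p : ℤ) ^ (b - m) * u := by
      rw [← hSz, ← pow_succ]
      exact_mod_cast h1
    exact hu (Int.dvd_of_mul_dvd_mul_left (pow_ne_zero _ (by exact_mod_cast hp.ne_zero)) h2)
  -- the element z
  set z := y ^ c / δ y with hz
  have hzfix : ∀ τ : C ≃ₐ[F] C, τ z = z := by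
    intro τ
    have hcomm : τ (δ y) = δ (τ y) := by
      have : τ * δ = δ * τ := by
        apply hζ.autToPow_injective F
        rw [map_mul, map_mul, mul_comm]
      exact DFunLike.congr_fun this y
    have hω := htau τ
    set ω := τ y / y with hωdef
    have hτy : τ y = ω * y := by rw [hωdef, div_mul_cancel₀ _ hy]
    have hω0 : ω ≠ 0 := by
      intro h
      rw [h, zero_pow (pow_ne_zero b hp.ne_zero)] at hω
      exact zero_ne_one hω
    rw [hz, map_div₀, map_pow, hcomm, hτy, map_mul, hroot ω hω, mul_pow,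
      mul_div_mul_left _ _ (pow_ne_zero c hω0)]
  obtain ⟨z0, hz0⟩ := (IsGalois.mem_range_algebraMap_iff_fixed z).2 hzfix
  have hzJ : z0 ^ p ^ (b - m) = x ^ e := by
    apply (algebraMap F C).injective
    rw [map_pow, map_pow, hz0, ← hxy, hz, hδy]
    have h1 : y ^ c = y ^ (c - 1) * y := by rw [← pow_succ, Nat.sub_add_cancel hc1.le]
    rw [h1, mul_div_mul_right _ _ hy, div_pow, hρJ, div_one, hme, ← pow_mul, ← pow_mul]
    congr 1
    have : p ^ b = p ^ m * p ^ (b - m) := by rw [← pow_add, Nat.add_sub_cancel' (by omega)]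
    rw [this]
    ring
  have hcop2 : IsCoprime (e : ℤ) ((p ^ (b - m) : ℕ) : ℤ) := by
    rw [Nat.isCoprime_iff_coprime]
    exact Nat.Coprime.pow_right _ ((Nat.Prime.coprime_iff_not_dvd hp).2 he).symm
  obtain ⟨α, β, hαβ⟩ := hcop2
  refine ⟨(z0 ^ α * x ^ β) ^ p ^ (b - m - a), ?_⟩
  rw [← pow_mul, ← pow_add, show b - m - a + a = b - m by omega, mul_pow, ← zpow_natCast, ← zpow_natCast,
    ← zpow_mul, ← zpow_mul, mul_comm α, zpow_mul, zpow_natCast, hzJ, ← zpow_natCast, ← zpow_mul,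
    ← zpow_add₀ hx]
  conv_rhs => rw [← zpow_one x, ← hαβ]
  congr 1
  ring

end Pool.Agent.Q239.EX
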