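import Pool.Agent.Q20.EX.Stm
import Pool.Agent.Q239.EX.GWGA

/-! Project EX (helper20), job GWG (helper239). -/

set_option autoImplicit false

namespace Pool.Agent.Q239.EX

open NumberField Pool.Agent.Q20.EX

/-- job GWG -/
theorem gwg : S_GWG := fun F _ _ p a hp => gwg0 F p a hp

end Pool.Agent.Q239.EX
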